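import Mathlib

set_option autoImplicit false

open MeasureTheory Filter Set
open scoped Topology

namespace Pool.Agent.Results.MP_e4fc02_an.No

section defs
variable {X : Type} [NormedAddCommGroup X] [NormedSpace ℝ X] [PartialOrder X]

def Sub (T : ℝ → X →L[ℝ] X) : Prop :=
  T 0 = 1 ∧ (∀ s t, 0 ≤ s → 0 ≤ t → T (s + t) = T s * T t) ∧
    (∀ x, ContinuousOn (fun t => T t x) (Ici 0)) ∧
    ∀ t, 0 ≤ t → ‖T t‖ ≤ 1 ∧ ∀ x, 0 ≤ x → 0 ≤ T t x

omit [PartialOrder X] in
def Gen (T : ℝ → X →L[ℝ] X) (x y : X) : Prop :=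
  Tendsto (fun h : ℝ => h⁻¹ • (T h x - x)) (𝓝[>] 0) (𝓝 y)

omit [PartialOrder X] in
def SumG (M : ℝ → X →L[ℝ] X) (P : X →ₗ.[ℝ] X) (x z : X) : Prop :=
  ∃ y, Gen M x y ∧ ∃ h : x ∈ P.domain, z = y + P ⟨x, h⟩

def Setup (I : X → ℝ) (M : ℝ → X →L[ℝ] X) (P : X →ₗ.[ℝ] X) : Prop :=
  Sub M ∧ (∀ x y, Gen M x y → x ∈ P.domain) ∧ (∀ x : P.domain, 0 ≤ (x : X) → 0 ≤ P x) ∧
    ∀ x z, 0 ≤ x → SumG M P x z → I z ≤ 0

def KatoVoigt (M : ℝ → X →L[ℝ] X) (P : X →ₗ.[ℝ] X) (J : ℝ → X →L[ℝ] X) : Prop :=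
  Sub J ∧ (∀ x z, SumG M P x z → Gen J x z) ∧
    ∀ V, Sub V → (∀ x z, SumG M P x z → Gen V x z) → ∀ t, 0 ≤ t → ∀ x, 0 ≤ x → J t x ≤ V t x

omit [PartialOrder X] in
def Honest (M : ℝ → X →L[ℝ] X) (P : X →ₗ.[ℝ] X) (J : ℝ → X →L[ℝ] X) : Prop :=
  {p : X × X | Gen J p.1 p.2} = closure {p : X × X | SumG M P p.1 p.2}

omit [PartialOrder X] in
def Fixed (M : ℝ → X →L[ℝ] X) (P : X →ₗ.[ℝ] X) (u : X) : Prop :=
  ∃ w : ℝ → P.domain, (∀ l, 0 < l → Gen M (w l) (l • (w l : X) - u)) ∧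
    Tendsto (fun l => P (w l)) (𝓝[>] 0) (𝓝 u)

def Counter (I : X → ℝ) : Prop :=
  ∃ (M : ℝ → X →L[ℝ] X) (P : X →ₗ.[ℝ] X) (J : ℝ → X →L[ℝ] X),
    Setup I M P ∧ KatoVoigt M P J ∧ Honest M P J ∧
      (∃ v, 0 ≤ v ∧ v ≠ 0 ∧ (¬ ∃ y, Gen M v y) ∧ Gen J v 0) ∧
      ∀ u, 0 ≤ u → u ≠ 0 → ¬ Fixed M P u

variable {T : ℝ → X →L[ℝ] X}

lemma deriv_right (hT : Sub T) {x y : X} (h : Gen T x y) {t : ℝ} (ht : 0 ≤ t) :
    HasDerivWithinAt (fun s => T s x) (T t y) (Ici t) t := by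
  rw [← hasDerivWithinAt_Ioi_iff_Ici, hasDerivWithinAt_iff_tendsto_slope' (by simp)]
  have h1 : Tendsto (fun s : ℝ => s - t) (𝓝[>] t) (𝓝[>] 0) := by
    refine tendsto_nhdsWithin_iff.2 ⟨?_, ?_⟩
    · have : Tendsto (fun s : ℝ => s - t) (𝓝 t) (𝓝 (t - t)) :=
        (continuous_id.sub continuous_const).tendsto t
      rw [sub_self] at this
      exact this.mono_left nhdsWithin_le_nhds
    · filter_upwards [self_mem_nhdsWithin] with s hs using sub_pos.2 (show t < s from hs)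
  refine (((T t).continuous.tendsto y).comp (h.comp h1)).congr' ?_
  filter_upwards [self_mem_nhdsWithin] with s hs
  have hs' : 0 ≤ s - t := (sub_pos.2 (show t < s from hs)).le
  have e : T s = T t * T (s - t) := by rw [← hT.2.1 t _ ht hs']; congr 1; ring
  simp only [Function.comp, slope_def_module, map_smul, map_sub, e, mul_apply_eq_comp]

lemma uniq (hT : Sub T) (I : X →L[ℝ] ℝ) {v : X} (hv : I v = 1) (D : Submodule ℝ X)
    (hD : Dense (D : Set X)) (h : ∀ x ∈ D, Gen T x (I x • v - x)) {t : ℝ} (ht : 0 ≤ t) (x : X) :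
    T t x = Real.exp (-t) • x + (1 - Real.exp (-t)) • I x • v := by
  obtain ⟨y, hy, hI⟩ : ∃ y ∈ D, I y = 1 := by
    obtain ⟨y, hy, h⟩ := hD.exists_mem_open (isOpen_ne_fun I.continuous continuous_const)
      (⟨v, by simp [hv]⟩ : {x | I x ≠ 0}.Nonempty)
    exact ⟨(I y)⁻¹ • y, D.smul_mem _ hy, by rw [map_smul, smul_eq_mul, inv_mul_cancel₀ h]⟩
  have a : ∀ s, 0 ≤ s → ∀ x, T s (x - I x • y) = Real.exp (-s) • (x - I x • y) := fun s hs x => by
    refine Dense.induction hD (P := fun x => T s (x - I x • y) = Real.exp (-s) • (x - I x • y))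
      (fun x hx => ?_) (isClosed_eq (by fun_prop) (by fun_prop)) x
    obtain ⟨z, hz⟩ : ∃ z, z = x - I x • y := ⟨_, rfl⟩
    rw [← hz]
    have hz2 := h z (hz ▸ D.sub_mem hx (D.smul_mem _ hy))
    rw [show I z = 0 by simp [hz, hI], zero_smul, zero_sub] at hz2
    have := constant_of_has_deriv_right_zero (f := fun s => Real.exp s • T s z) (a := 0) (b := s)
      (Real.continuous_exp.continuousOn.smul ((hT.2.2.1 z).mono Icc_subset_Ici_self))
      (fun r hr => by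
        have := (Real.hasDerivAt_exp r).hasDerivWithinAt.smul (deriv_right hT hz2 hr.1)
        rwa [map_neg, smul_neg, neg_add_cancel] at this) s ⟨hs, le_rfl⟩
    simp only [Real.exp_zero, hT.1, one_apply_eq_self, one_smul] at this
    conv_rhs => rw [← this, smul_smul, ← Real.exp_add, neg_add_cancel, Real.exp_zero, one_smul]
  have a' : ∀ s, 0 ≤ s → T s v = T s y + Real.exp (-s) • (v - y) := fun s hs => by
    have := a s hs v
    rw [hv, one_smul, map_sub] at this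
    rw [← this]; abel
  have b : T t v = v := by
    have := constant_of_has_deriv_right_zero
      (f := fun s => T s y + Real.exp (-s) • (v - y)) (a := 0) (b := t)
      (((hT.2.2.1 y).mono Icc_subset_Ici_self).add (by fun_prop))
      (fun r hr => by
        have := (deriv_right hT (h y hy) hr.1).add
          (((hasDerivAt_neg r).exp.smul_const (v - y)).hasDerivWithinAt (s := Ici r))
        rw [hI, one_smul, map_sub, a' r hr.1] at this
        rw [show T r y + Real.exp (-r) • (v - y) - T r y + (Real.exp (-r) * -1) • (v - y) = 0 by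
          module] at this
        exact this) t ⟨ht, le_rfl⟩
    rw [a' t ht, this]
    simp [hT.1]
  have c := a t ht x
  have d := a' t ht
  rw [map_sub, map_smul] at c
  rw [b] at d
  rw [eq_add_of_sub_eq c, eq_sub_of_add_eq d.symm]
  module

omit [PartialOrder X] in
lemma genJ (I : X →L[ℝ] ℝ) (v x : X) (h : ∀ t, T t x = Real.exp (-t) • x +
    (1 - Real.exp (-t)) • I x • v) : Gen T x (I x • v - x) := by
  have := ((hasDerivAt_neg (0 : ℝ)).exp.smul_const x).add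
    (((hasDerivAt_neg (0 : ℝ)).exp.const_sub 1).smul_const (I x • v))
  have := (hasDerivAt_iff_tendsto_slope_zero.1 this).mono_left (nhdsGT_le_nhdsNE 0)
  simp only [Pi.add_apply, zero_add, neg_zero, Real.exp_zero, one_smul, sub_self, zero_smul,
    add_zero, ← h] at this
  rwa [show ((1 : ℝ) * -1) • x + -((1 : ℝ) * -1) • I x • v = I x • v - x by module] at this

end defs

section conc
variable {Ω : Type} [MeasurableSpace Ω] {ν : Measure Ω} [IsProbabilityMeasure ν] {a : Ω → ℝ}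

omit [IsProbabilityMeasure ν] in
lemma exM (ha : Measurable a) (h1 : ∀ x, 1 ≤ a x) : ∃ M : ℝ → Lp ℝ 1 ν →L[ℝ] Lp ℝ 1 ν,
    ∀ t, 0 ≤ t → ∀ f, M t f =ᵐ[ν] fun x => Real.exp (-(t * a x)) * f x := by
  have m : ∀ t : ℝ, MemLp (fun x => Real.exp (-(|t| * a x))) ⊤ ν := fun t =>
    memLp_top_of_bound (by fun_prop) 1 (ae_of_all _ fun x => by
      rw [Real.norm_of_nonneg (Real.exp_pos _).le, Real.exp_le_one_iff]
      exact neg_nonpos.2 (mul_nonneg (abs_nonneg _) (by linarith [h1 x])))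
  refine ⟨fun t => (ContinuousLinearMap.mul ℝ ℝ).holderL ν ⊤ 1 1 (m t).toLp, fun t ht f => ?_⟩
  filter_upwards [(ContinuousLinearMap.mul ℝ ℝ).coeFn_holder (r := 1) (m t).toLp f,
    (m t).coeFn_toLp] with x h2 h3
  exact h2.trans (by rw [ContinuousLinearMap.mul_apply', h3, abs_of_nonneg ht])

omit [IsProbabilityMeasure ν] in
lemma tendL {ι : Type} {l : Filter ι} [l.IsCountablyGenerated] {F : ι → Lp ℝ 1 ν} {g : Lp ℝ 1 ν}
    {G : ι → Ω → ℝ} {b : Ω → ℝ} (hb : Integrable b ν) (h : ∀ᶠ i in l, F i =ᵐ[ν] G i)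
    (h2 : ∀ᶠ i in l, ∀ x, |G i x| ≤ b x) (h3 : ∀ᵐ x ∂ν, Tendsto (fun i => G i x) l (𝓝 (g x))) :
    Tendsto F l (𝓝 g) := by
  rw [tendsto_iff_norm_sub_tendsto_zero]
  have := tendsto_integral_filter_of_dominated_convergence (μ := ν) (l := l)
    (F := fun i x => ‖G i x - g x‖) (f := fun _ => 0) (fun x => b x + ‖g x‖)
    (h.mono fun i hi => (((Lp.aestronglyMeasurable (F i)).congr hi).sub
      (Lp.aestronglyMeasurable g)).norm)
    (h2.mono fun i hi => ae_of_all _ fun x => by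
      rw [norm_norm]; exact (norm_sub_le _ _).trans (add_le_add (hi x) le_rfl))
    (hb.add (L1.integrable_coeFn g).norm)
    (h3.mono fun x hx => tendsto_iff_norm_sub_tendsto_zero.1 hx)
  rw [integral_zero] at this
  refine this.congr' (h.mono fun i hi => ?_)
  beta_reduce
  rw [L1.norm_eq_integral_norm]
  refine integral_congr_ae ?_
  filter_upwards [hi, Lp.coeFn_sub (F i) g] with x h4 h5
  rw [h5, Pi.sub_apply, h4]

lemma slope_exp (c : ℝ) :
    Tendsto (fun h : ℝ => h⁻¹ * (Real.exp (-(h * c)) - 1)) (𝓝[>] 0) (𝓝 (-c)) := by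
  have := ((hasDerivAt_id (0 : ℝ)).mul_const c).neg.exp
  simpa using (hasDerivAt_iff_tendsto_slope_zero.1 this).mono_left (nhdsGT_le_nhdsNE 0)

omit [IsProbabilityMeasure ν] in
lemma genM (h1 : ∀ x, 1 ≤ a x) {M : ℝ → Lp ℝ 1 ν →L[ℝ] Lp ℝ 1 ν}
    (hM : ∀ t, 0 ≤ t → ∀ f, M t f =ᵐ[ν] fun x => Real.exp (-(t * a x)) * f x) (f g : Lp ℝ 1 ν) :
    Gen M f g ↔ g =ᵐ[ν] fun x => -a x * f x := by
  have e : ∀ h : ℝ, 0 < h → (h⁻¹ • (M h f - f) : Lp ℝ 1 ν) =ᵐ[ν]
      fun x => h⁻¹ * (Real.exp (-(h * a x)) - 1) * f x := fun h hh => by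
    filter_upwards [Lp.coeFn_smul h⁻¹ (M h f - f), Lp.coeFn_sub (M h f) f, hM h hh.le f]
      with x h2 h3 h4
    rw [h2, Pi.smul_apply, h3, Pi.sub_apply, h4, smul_eq_mul]
    ring
  refine ⟨fun h => ?_, fun h => ?_⟩
  · obtain ⟨ns, h2, h3⟩ := (tendstoInMeasure_of_tendsto_Lp h).exists_seq_tendsto_ae'
    have h4 : ∀ᵐ x ∂ν, ∀ i, 0 < ns i → (ns i)⁻¹ • (M (ns i) f - f) x =
        (ns i)⁻¹ * (Real.exp (-(ns i * a x)) - 1) * f x := by
      refine ae_all_iff.2 fun i => ?_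
      by_cases hi : 0 < ns i
      · filter_upwards [e _ hi, Lp.coeFn_smul (ns i)⁻¹ (M (ns i) f - f)] with x h5 h6 _
        rw [← h5, h6, Pi.smul_apply]
      · simp [hi]
    have h7 : ∀ᵐ x ∂ν, ∀ i, ((ns i)⁻¹ • (M (ns i) f - f) : Lp ℝ 1 ν) x =
        (ns i)⁻¹ • (M (ns i) f - f) x := ae_all_iff.2 fun i => Lp.coeFn_smul _ _
    filter_upwards [h3, h4, h7] with x h5 h6 h8
    refine tendsto_nhds_unique h5 ((((slope_exp (a x)).comp h2).mul_const (f x)).congr' ?_)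
    filter_upwards [h2.eventually self_mem_nhdsWithin] with i hi
    rw [h8, h6 i hi, Function.comp]
  · refine tendL (b := fun x => |-a x * f x|) ((L1.integrable_coeFn g).congr h).abs
      (eventually_mem_nhdsWithin.mono e) (eventually_mem_nhdsWithin.mono fun t ht x => ?_)
      (h.mono fun x hx => hx ▸ (slope_exp (a x)).mul_const (f x))
    have ht' : 0 < t := ht
    have h2 : 0 ≤ t * a x := mul_nonneg ht'.le (by linarith [h1 x])
    rw [abs_mul _ (f x), abs_mul _ (f x), abs_neg, abs_mul, abs_of_pos (inv_pos.2 ht'),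
      abs_of_nonpos (sub_nonpos.2 (Real.exp_le_one_iff.2 (by linarith))),
      abs_of_nonneg (by linarith [h1 x] : 0 ≤ a x)]
    gcongr
    rw [inv_mul_le_iff₀ ht']
    linarith [Real.add_one_le_exp (-(t * a x))]

omit [IsProbabilityMeasure ν] in
lemma subM (h1 : ∀ x, 1 ≤ a x) {M : ℝ → Lp ℝ 1 ν →L[ℝ] Lp ℝ 1 ν}
    (hM : ∀ t, 0 ≤ t → ∀ f, M t f =ᵐ[ν] fun x => Real.exp (-(t * a x)) * f x) : Sub M := by
  have b : ∀ t, 0 ≤ t → ∀ x (y : ℝ), |Real.exp (-(t * a x)) * y| ≤ |y| := fun t ht x y => by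
    rw [abs_mul, abs_of_pos (Real.exp_pos _)]
    exact mul_le_of_le_one_left (abs_nonneg _) (Real.exp_le_one_iff.2
      (neg_nonpos.2 (mul_nonneg ht (by linarith [h1 x]))))
  refine ⟨?_, fun s t hs ht => ?_, fun f t ht => ?_, fun t ht => ⟨?_, fun f hf => ?_⟩⟩
  · ext1 f
    exact Lp.ext ((hM 0 le_rfl f).mono fun x hx => by simpa using hx)
  · ext1 f
    refine Lp.ext ?_
    filter_upwards [hM _ (add_nonneg hs ht) f, hM s hs (M t f), hM t ht f] with x h2 h3 h4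
    rw [mul_apply_eq_comp, h2, h3, h4, ← mul_assoc, ← Real.exp_add]
    congr 2
    ring
  · refine tendL (b := fun x => |f x|) (L1.integrable_coeFn f).abs
      (eventually_mem_nhdsWithin.mono fun s hs => hM s hs f)
      (eventually_mem_nhdsWithin.mono fun s hs x => b s hs x _) ((hM t ht f).mono fun x hx => ?_)
    rw [hx]
    exact (Continuous.tendsto (by fun_prop) t).mono_left nhdsWithin_le_nhds
  · refine ContinuousLinearMap.opNorm_le_bound _ zero_le_one fun f => ?_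
    rw [one_mul]
    exact Lp.norm_le_norm_of_ae_le ((hM t ht f).mono fun x hx => hx ▸ b t ht x _)
  · rw [← Lp.coeFn_nonneg] at hf ⊢
    filter_upwards [hM t ht f, hf] with x h2 h3
    rw [h2]
    exact mul_nonneg (Real.exp_pos _).le h3

lemma exP (a : Ω → ℝ) (I : Lp ℝ 1 ν →L[ℝ] ℝ) (v : Lp ℝ 1 ν) : ∃ P : Lp ℝ 1 ν →ₗ.[ℝ] Lp ℝ 1 ν,
    (∀ f, f ∈ P.domain ↔ Integrable (fun x => a x * f x) ν) ∧
      ∀ f : P.domain, P f =ᵐ[ν] fun x => I f * v x + (a x - 1) * (f : Lp ℝ 1 ν) x := by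
  let D : Submodule ℝ (Lp ℝ 1 ν) :=
    { carrier := {f | Integrable (fun x => a x * f x) ν}
      add_mem' := fun {f g} hf hg => (Integrable.add hf hg).congr
        ((Lp.coeFn_add f g).mono fun x hx => by simp only [hx, Pi.add_apply, mul_add])
      zero_mem' := (integrable_zero _ _ _).congr
        ((Lp.coeFn_zero ℝ 1 ν).mono fun x hx => by simp only [hx, Pi.zero_apply, mul_zero])
      smul_mem' := fun c f hf => (Integrable.const_mul hf c).congr
        ((Lp.coeFn_smul c f).mono fun x hx => by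
          simp only [hx, Pi.smul_apply, smul_eq_mul, mul_left_comm]) }
  let A : D →ₗ[ℝ] Lp ℝ 1 ν :=
    { toFun := fun f => Integrable.toL1 _ f.2
      map_add' := fun f g => Lp.ext (by
        filter_upwards [(f + g).2.coeFn_toL1, f.2.coeFn_toL1, g.2.coeFn_toL1,
          Lp.coeFn_add (Integrable.toL1 _ f.2) (Integrable.toL1 _ g.2), Lp.coeFn_add f.1 g.1]
          with x h1 h2 h3 h4 h5
        rw [h1, h4, Pi.add_apply, h2, h3, Submodule.coe_add, h5, Pi.add_apply, mul_add])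
      map_smul' := fun c f => Lp.ext (by
        filter_upwards [(c • f).2.coeFn_toL1, f.2.coeFn_toL1,
          Lp.coeFn_smul c (Integrable.toL1 _ f.2), Lp.coeFn_smul c f.1] with x h1 h2 h4 h5
        rw [h1, RingHom.id_apply, h4, Pi.smul_apply, h2, Submodule.coe_smul, h5, Pi.smul_apply,
          smul_eq_mul, smul_eq_mul, mul_left_comm]) }
  refine ⟨⟨D, ((I.smulRight v).toLinearMap - LinearMap.id).domRestrict D + A⟩, fun f => Iff.rfl,
    fun ⟨f, hf⟩ => ?_⟩
  have hf' : Integrable (fun x => a x * f x) ν := hf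
  change (I f • v - f + Integrable.toL1 _ hf' : Lp ℝ 1 ν) =ᵐ[ν] fun x => I f * v x + (a x - 1) * f x
  filter_upwards [Lp.coeFn_add (I f • v - f) (Integrable.toL1 _ hf'), Lp.coeFn_sub (I f • v) f,
    Lp.coeFn_smul (I f) v, hf'.coeFn_toL1] with x h1 h2 h3 h4
  rw [h1, Pi.add_apply, h2, Pi.sub_apply, h3, Pi.smul_apply, h4, smul_eq_mul]
  ring

lemma main (ha : Measurable a) (h1 : ∀ x, 1 ≤ a x) (hi : ¬ Integrable a ν) :
    Counter fun f : Lp ℝ 1 ν => ∫ x, f x ∂ν := by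
  obtain ⟨M, hM⟩ := exM (ν := ν) ha h1
  obtain ⟨I, hI⟩ : ∃ I : Lp ℝ 1 ν →L[ℝ] ℝ, ∀ f, I f = ∫ x, f x ∂ν :=
    ⟨L1.integralCLM, fun f => by rw [← L1.integral_eq, L1.integral_eq_integral]⟩
  obtain ⟨v, hv⟩ : ∃ v : Lp ℝ 1 ν, v =ᵐ[ν] fun _ => 1 :=
    ⟨(integrable_const (1 : ℝ)).toL1, Integrable.coeFn_toL1 _⟩
  have hIv : I v = 1 := by rw [hI, integral_congr_ae hv]; simp
  have hv0 : 0 ≤ v := (Lp.coeFn_nonneg v).1 (hv.mono fun x hx => by simp [hx])
  have hnv : ‖v‖ = 1 := by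
    rw [L1.norm_eq_integral_norm, integral_congr_ae (g := fun _ => 1)
      (hv.mono fun x hx => by simp [hx])]
    simp
  have hI0 : ∀ f, 0 ≤ f → 0 ≤ I f := fun f hf => by
    rw [hI]; exact integral_nonneg_of_ae ((Lp.coeFn_nonneg f).2 hf)
  obtain ⟨P, hD, hP⟩ := exP a I v
  have gM := genM h1 hM
  have sM := subM h1 hM
  have gD : ∀ f g, Gen M f g → f ∈ P.domain := fun f g h => (hD f).2
    (((L1.integrable_coeFn g).congr ((gM f g).1 h)).neg.congr (ae_of_all _ fun x => by simp))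
  have sG : ∀ f z, SumG M P f z ↔ f ∈ P.domain ∧ z = I f • v - f := fun f z => by
    have k : ∀ y (h : f ∈ P.domain), Gen M f y → y + P ⟨f, h⟩ = I f • v - f := fun y h hy => by
      refine Lp.ext ?_
      filter_upwards [Lp.coeFn_add y (P ⟨f, h⟩), (gM f y).1 hy, hP ⟨f, h⟩,
        Lp.coeFn_sub (I f • v) f, Lp.coeFn_smul (I f) v] with x h2 h3 h4 h5 h6
      rw [h2, Pi.add_apply, h3, h4, h5, Pi.sub_apply, h6, Pi.smul_apply, smul_eq_mul]
      ring
    refine ⟨fun ⟨y, hy, h, e⟩ => ⟨h, e.trans (k y h hy)⟩, fun ⟨h, e⟩ => ?_⟩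
    have := (gM f (((hD f).1 h).neg.toL1)).2
      (((hD f).1 h).neg.coeFn_toL1.trans (ae_of_all _ fun x => by simp))
    exact ⟨_, this, h, e.trans (k _ h this).symm⟩
  have dD : Dense (P.domain : Set (Lp ℝ 1 ν)) := fun f => by
    have := ((sM.2.2.1 f) 0 self_mem_Ici).tendsto.mono_left (nhdsWithin_mono _ Ioi_subset_Ici_self)
    rw [sM.1, one_apply_eq_self] at this
    refine mem_closure_of_tendsto this (eventually_mem_nhdsWithin.mono fun t ht => (hD _).2 ?_)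
    have ht' : 0 < t := ht
    refine ((L1.integrable_coeFn f).bdd_mul (c := t⁻¹)
      (f := fun x => a x * Real.exp (-(t * a x))) (by fun_prop) (ae_of_all _ fun x => ?_)).congr
      ((hM t ht'.le f).mono fun x hx => by simp only [hx, mul_assoc])
    have := h1 x
    rw [Real.norm_of_nonneg (by positivity), Real.exp_neg, ← div_eq_mul_inv,
      div_le_iff₀ (Real.exp_pos _), le_inv_mul_iff₀ ht']
    linarith [Real.add_one_le_exp (t * a x)]
  obtain ⟨J, hJ⟩ : ∃ J : ℝ → Lp ℝ 1 ν →L[ℝ] Lp ℝ 1 ν, ∀ t f,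
      J t f = Real.exp (-t) • f + (1 - Real.exp (-t)) • I f • v :=
    ⟨fun t => Real.exp (-t) • 1 + (1 - Real.exp (-t)) • I.smulRight v, fun _ _ => rfl⟩
  have gJ : ∀ f z, Gen J f z ↔ z = I f • v - f := fun f z =>
    ⟨fun h => tendsto_nhds_unique h (genJ I v f fun t => hJ t f),
      fun h => h ▸ genJ I v f fun t => hJ t f⟩
  refine ⟨M, P, J, ⟨sM, gD, fun f hf => ?_, fun f z _ h => ?_⟩,
    ⟨⟨?_, fun s t _ _ => ?_, fun f => ?_, fun t ht => ⟨?_, fun f hf => ?_⟩⟩,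
      fun f z h => (gJ f z).2 ((sG f z).1 h).2, fun V hV h t ht f _ => ?_⟩, ?_,
    ⟨v, hv0, fun h => by simp [h] at hIv, fun ⟨y, hy⟩ => hi ?_, (gJ _ _).2 (by simp [hIv])⟩,
    fun u _ hu ⟨w, hw, h⟩ => hu ?_⟩
  · rw [← Lp.coeFn_nonneg]
    filter_upwards [hP f, (Lp.coeFn_nonneg _).2 hf, hv] with x h2 h3 h4
    rw [h2, h4]
    exact add_nonneg (mul_nonneg (hI0 _ hf) zero_le_one) (mul_nonneg (sub_nonneg.2 (h1 x)) h3)
  · beta_reduce
    rw [← hI, ((sG f z).1 h).2]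
    simp [hIv]
  · ext1 f
    simp [hJ]
  · ext1 f
    simp only [mul_apply_eq_comp, hJ, map_add, map_smul, hIv, neg_add, Real.exp_add, smul_eq_mul]
    module
  · simp only [hJ]
    fun_prop
  · refine ContinuousLinearMap.opNorm_le_bound _ zero_le_one fun f => ?_
    have h2 : 0 ≤ 1 - Real.exp (-t) := sub_nonneg.2 (Real.exp_le_one_iff.2 (neg_nonpos.2 ht))
    have h3 : ‖I f‖ ≤ ‖f‖ := by
      rw [hI, L1.norm_eq_integral_norm]; exact norm_integral_le_integral_norm _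
    rw [hJ]
    refine (norm_add_le _ _).trans ?_
    rw [norm_smul, norm_smul, norm_smul, hnv, Real.norm_of_nonneg (Real.exp_pos _).le,
      Real.norm_of_nonneg h2]
    nlinarith [mul_le_mul_of_nonneg_left h3 h2]
  · rw [hJ]
    have sn : ∀ (c : ℝ) (g : Lp ℝ 1 ν), 0 ≤ c → 0 ≤ g → 0 ≤ c • g := fun c g hc hg => by
      rw [← Lp.coeFn_nonneg] at hg ⊢
      filter_upwards [Lp.coeFn_smul c g, hg] with x h2 h3
      rw [h2]
      exact mul_nonneg hc h3
    exact add_nonneg (sn _ _ (Real.exp_pos _).le hf) (sn _ _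
      (sub_nonneg.2 (Real.exp_le_one_iff.2 (neg_nonpos.2 ht))) (sn _ _ (hI0 f hf) hv0))
  · rw [hJ, uniq hV I hIv P.domain dD (fun x hx => h x _ ((sG _ _).2 ⟨hx, rfl⟩)) ht]
  · simp only [Honest, gJ, sG]
    refine subset_antisymm ?_ (closure_minimal (fun p hp => hp.2)
      (isClosed_eq continuous_snd (by fun_prop)))
    rintro ⟨f, z⟩ (rfl : z = I f • v - f)
    refine map_mem_closure (f := fun f => (f, I f • v - f)) (by fun_prop) (dD f) fun g hg => ?_
    exact ⟨hg, rfl⟩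
  · exact ((hD v).1 (gD _ _ hy)).congr (hv.mono fun x hx => by simp [hx])
  · obtain ⟨ns, h2, h3⟩ := (tendstoInMeasure_of_tendsto_Lp h).exists_seq_tendsto_ae'
    have h4 : ∀ᵐ x ∂ν, ∀ i, 0 < ns i →
        P (w (ns i)) x = I (w (ns i)) + (a x - 1) * (u x / (ns i + a x)) := by
      refine ae_all_iff.2 fun i => ?_
      by_cases hi : 0 < ns i
      · filter_upwards [hP (w (ns i)), hv, (gM _ _).1 (hw _ hi),
          Lp.coeFn_sub (ns i • (w (ns i) : Lp ℝ 1 ν)) u,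
          Lp.coeFn_smul (ns i) (w (ns i) : Lp ℝ 1 ν)] with x h5 h6 h7 h8 h9 _
        rw [h8, Pi.sub_apply, h9, Pi.smul_apply, smul_eq_mul] at h7
        have := h1 x
        have e : (w (ns i) : Lp ℝ 1 ν) x = u x / (ns i + a x) :=
          (eq_div_iff (by linarith)).2 (by linarith)
        rw [h5, h6, mul_one, e]
      · simp [hi]
    have h5 : ∀ᵐ x ∂ν, limUnder atTop (fun i => I (w (ns i))) * a x = u x := by
      filter_upwards [h3, h4] with x h6 h7
      have := h1 x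
      have h8 : Tendsto (fun i => (a x - 1) * (u x / (ns i + a x))) atTop
          (𝓝 ((a x - 1) * (u x / (0 + a x)))) :=
        (tendsto_const_nhds.div ((h2.mono_right nhdsWithin_le_nhds).add_const _)
          (by linarith)).const_mul _
      have h9 : Tendsto (fun i => I (w (ns i))) atTop (𝓝 (u x - (a x - 1) * (u x / (0 + a x)))) := by
        refine (h6.sub h8).congr' ?_
        filter_upwards [h2.eventually self_mem_nhdsWithin] with i hi
        rw [h7 i hi, add_sub_cancel_right]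
      rw [h9.limUnder_eq]
      field_simp
      ring
    generalize limUnder atTop (fun i => I (w (ns i))) = c at h5
    by_cases hc : c = 0
    · refine Lp.ext ?_
      filter_upwards [h5, Lp.coeFn_zero ℝ 1 ν] with x h6 h7
      rw [h7, ← h6, hc, zero_mul, Pi.zero_apply]
    · exact absurd (((L1.integrable_coeFn u).const_mul c⁻¹).congr
        (h5.mono fun x hx => by simp only [← hx]; field_simp)) hi

end conc

theorem result : ∃ ν : Measure ℝ, Counter fun f : Lp ℝ 1 ν => ∫ x, f x ∂ν := by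
  haveI : IsProbabilityMeasure (volume.restrict (Ioc (0 : ℝ) 1)) := ⟨by simp⟩
  refine ⟨volume.restrict (Ioc 0 1), main (a := fun x => 1 + |x|⁻¹) (by fun_prop)
    (fun x => by simp) fun h => ?_⟩
  have h2 : IntegrableOn (fun x : ℝ => x⁻¹) (Ioc 0 1) :=
    (h.sub (integrable_const 1)).congr ((ae_restrict_mem measurableSet_Ioc).mono fun x hx => by
      simp [abs_of_pos hx.1])
  have := intervalIntegrable_inv_iff.1 ((intervalIntegrable_iff_integrableOn_Ioc_of_le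
    zero_le_one).2 h2)
  simp at this

end Pool.Agent.Results.MP_e4fc02_an.No
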